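import Pool.Agent.FC.O.Z0
import Pool.Agent.FC.M.Sel
import Pool.Agent.FC.GI4

/-!
# MP_4dee65_co, Q1: many collinear quadruples in mutually avoiding sets

For every `c > 0` and every `k` there is `n₀` such that for `n ≥ n₀`: if `A, B, C, D` are mutually
avoiding sets of `n` points of the Euclidean plane with at least `c n²` collinear four-tuples, then
each of the four sets contains `k` points of one line. (`k = 5` is the question.)

Structure of the proof: `Pool/Agent/FC`. Module O (reduction of the planar configuration to ordered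
families), G (near-linear windows in the dual plane), M (multi-scale density increment), F
(compactness), B (Balog-Szemerédi, Sanders, Plünnecke), D (density Hales-Jewett), C (grids on
cubics, Cayley-Bacharach).
-/

set_option autoImplicit false

namespace Pool.Agent.Results.MP_4dee65_co.KCollinear

/-- The Euclidean plane. -/
abbrev Plane := EuclideanSpace ℝ (Fin 2)

/-- `X` avoids `Y`: no line determined by `X` (through two distinct points of `X`) meets the convex
hull of `Y`. -/
def Avoids (X Y : Finset Plane) : Prop :=
  ∀ x ∈ X, ∀ x' ∈ X, x ≠ x' → ∀ z ∈ affineSpan ℝ ({x, x'} : Set Plane),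
    z ∉ convexHull ℝ (Y : Set Plane)

/-- For each of the four sets, no line determined by that set meets the convex hull of any of the
other three sets. -/
def MutuallyAvoiding (A B C D : Finset Plane) : Prop :=
  (Avoids A B ∧ Avoids A C ∧ Avoids A D) ∧ (Avoids B A ∧ Avoids B C ∧ Avoids B D) ∧
    (Avoids C A ∧ Avoids C B ∧ Avoids C D) ∧ (Avoids D A ∧ Avoids D B ∧ Avoids D C)

open Classical in
/-- The collinear four-tuples `(a, b, c, d) ∈ A × B × C × D`. -/
noncomputable def fourTuples (A B C D : Finset Plane) :
    Finset (Plane × Plane × Plane × Plane) :=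
  (A ×ˢ B ×ˢ C ×ˢ D).filter
    (fun t => Collinear ℝ ({t.1, t.2.1, t.2.2.1, t.2.2.2} : Set Plane))

/-- **Full answer to Q1** (in the stronger form with `k` collinear points for every `k`). -/
theorem result (c : ℝ) (hc : 0 < c) (k : ℕ) :
    ∃ n₀ : ℕ, ∀ n : ℕ, n₀ ≤ n → ∀ A B C D : Finset Plane,
      A.card = n → B.card = n → C.card = n → D.card = n → MutuallyAvoiding A B C D →
      c * (n : ℝ) ^ 2 ≤ ((fourTuples A B C D).card : ℝ) →
      ∀ Z : Finset Plane, (Z = A ∨ Z = B ∨ Z = C ∨ Z = D) →
        ∃ T : Finset Plane, T ⊆ Z ∧ T.card = k ∧ Collinear ℝ (T : Set Plane) :=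
  FC.final_of (fun c hc => FC.window_thm c hc)
    (fun c₁ D h1 h2 h3 h4 Φ => FC.M.multi_scale c₁ D h1 h2 h3 h4 Φ) k c hc

end Pool.Agent.Results.MP_4dee65_co.KCollinear
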